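import Mathlib

open Filter Topology Polynomial

namespace Pool.Agent.H.MP_8d213d_nt

noncomputable def L (α ξ : ℝ) : ℝ :=
  limsup (fun n : ℕ => |ξ * α ^ n - round (ξ * α ^ n)|) atTop

theorem dist_eq (x : ℝ) (z : ℤ) (h : |x - z| < 1 / 2) : round x = z := by
  have h1 : x = (z : ℝ) + (x - z) := by ring
  rw [h1, round_intCast_add]
  have : round (x - z) = 0 := by
    rw [round_eq_zero_iff]
    have := abs_lt.1 h
    constructor <;> linarith [this.1, this.2]
  rw [this, add_zero]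

theorem bdd (α ξ : ℝ) :
    IsBoundedUnder (· ≤ ·) atTop (fun n : ℕ => |ξ * α ^ n - round (ξ * α ^ n)|) :=
  isBoundedUnder_of ⟨1 / 2, fun _ => abs_sub_round _⟩

theorem cobdd (α ξ : ℝ) :
    IsCoboundedUnder (· ≤ ·) atTop (fun n : ℕ => |ξ * α ^ n - round (ξ * α ^ n)|) :=
  isCoboundedUnder_le_of_le atTop (x := 0) (fun _ => abs_nonneg _)

theorem ev_lt {α ξ t : ℝ} (h : L α ξ < t) :
    ∀ᶠ n : ℕ in atTop, |ξ * α ^ n - round (ξ * α ^ n)| < t :=
  eventually_lt_of_limsup_lt h (bdd α ξ)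

theorem scale {α ξ : ℝ} (m : ℕ) (hm : 0 < m) (h : m * L α ξ < 1 / 2) :
    L α (m * ξ) = m * L α ξ := by
  have hm' : (0 : ℝ) < m := by exact_mod_cast hm
  have h1 : L α ξ < 1 / 2 / m := by rw [lt_div_iff₀ hm']; linarith
  have h2 := ev_lt h1
  have h3 : ∀ᶠ n : ℕ in atTop, |(m * ξ) * α ^ n - round ((m * ξ) * α ^ n)|
      = m * |ξ * α ^ n - round (ξ * α ^ n)| := by
    filter_upwards [h2] with n hn
    have e : (m * ξ) * α ^ n - ((m * round (ξ * α ^ n) : ℤ) : ℝ)
        = m * (ξ * α ^ n - round (ξ * α ^ n)) := by push_cast; ring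
    have : round ((m * ξ) * α ^ n) = m * round (ξ * α ^ n) := by
      apply dist_eq
      rw [e, abs_mul, abs_of_pos hm']
      rw [lt_div_iff₀ hm'] at hn
      linarith
    rw [this, e, abs_mul, abs_of_pos hm']
  unfold L
  rw [limsup_congr h3]
  have := (OrderIso.mulLeft₀ (m : ℝ) hm').limsup_apply (f := atTop)
    (u := fun n : ℕ => |ξ * α ^ n - round (ξ * α ^ n)|) (bdd α ξ) (cobdd α ξ)
    (isBoundedUnder_of ⟨m * (1 / 2), fun n => by
      simpa using mul_le_mul_of_nonneg_left (abs_sub_round (ξ * α ^ n)) hm'.le⟩)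
    (isCoboundedUnder_le_of_le atTop (x := 0) (fun n => by
      simp only [OrderIso.mulLeft₀_apply]; positivity))
  simpa using this.symm

theorem countable_small {α : ℝ} (h1 : 1 < α) (hi : IsIntegral ℤ α) :
    ∃ δ : ℝ, 0 < δ ∧ {ξ : ℝ | L α ξ < δ}.Countable := by
  obtain ⟨P, hP, h0⟩ := hi
  set d := P.natDegree with hd
  set C : ℝ := ∑ i ∈ Finset.range (d + 1), |(P.coeff i : ℝ)| with hC
  have hC0 : 0 ≤ C := Finset.sum_nonneg fun _ _ => abs_nonneg _
  set δ : ℝ := 1 / (C + 1) with hδ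
  have hδ0 : 0 < δ := by positivity
  have hsum : ∑ i ∈ Finset.range (d + 1), (P.coeff i : ℝ) * α ^ i = 0 := by
    rw [eval₂_eq_sum_range] at h0
    simpa using h0
  have hrec : ∀ (ξ : ℝ) (n : ℕ), (∀ k, n ≤ k → |ξ * α ^ k - round (ξ * α ^ k)| < δ) →
      ∑ i ∈ Finset.range (d + 1), P.coeff i * round (ξ * α ^ (n + i)) = 0 := by
    intro ξ n hn
    have e : ((∑ i ∈ Finset.range (d + 1), P.coeff i * round (ξ * α ^ (n + i)) : ℤ) : ℝ)
        = -∑ i ∈ Finset.range (d + 1),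
          (P.coeff i : ℝ) * (ξ * α ^ (n + i) - round (ξ * α ^ (n + i))) := by
      have : ∑ i ∈ Finset.range (d + 1), (P.coeff i : ℝ) * (ξ * α ^ (n + i)) = 0 := by
        have : ∑ i ∈ Finset.range (d + 1), (P.coeff i : ℝ) * (ξ * α ^ (n + i))
            = ξ * α ^ n * ∑ i ∈ Finset.range (d + 1), (P.coeff i : ℝ) * α ^ i := by
          rw [Finset.mul_sum]
          refine Finset.sum_congr rfl fun i _ => by ring
        rw [this, hsum, mul_zero]
      simp only [mul_sub, Finset.sum_sub_distrib, this]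
      push_cast
      ring
    have hb : |((∑ i ∈ Finset.range (d + 1), P.coeff i * round (ξ * α ^ (n + i)) : ℤ) : ℝ)|
        < 1 := by
      rw [e, abs_neg]
      calc _ ≤ ∑ i ∈ Finset.range (d + 1),
            |(P.coeff i : ℝ) * (ξ * α ^ (n + i) - round (ξ * α ^ (n + i)))| :=
            Finset.abs_sum_le_sum_abs _ _
        _ ≤ ∑ i ∈ Finset.range (d + 1), |(P.coeff i : ℝ)| * δ := by
            refine Finset.sum_le_sum fun i _ => ?_
            rw [abs_mul]
            exact mul_le_mul_of_nonneg_left (hn _ (Nat.le_add_right _ _)).le (abs_nonneg _)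
        _ = C * δ := by rw [← Finset.sum_mul]
        _ < 1 := by
            rw [hδ, mul_one_div, div_lt_one (by positivity)]
            linarith
    have : |∑ i ∈ Finset.range (d + 1), P.coeff i * round (ξ * α ^ (n + i))| < 1 := by
      exact_mod_cast hb
    exact Int.abs_lt_one_iff.1 this
  refine ⟨δ, hδ0, ?_⟩
  have hsub : {ξ : ℝ | L α ξ < δ} ⊆
      ⋃ N : ℕ, {ξ : ℝ | ∀ k, N ≤ k → |ξ * α ^ k - round (ξ * α ^ k)| < δ} := by
    intro ξ hξ
    obtain ⟨N, hN⟩ := eventually_atTop.1 (ev_lt hξ)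
    exact Set.mem_iUnion.2 ⟨N, hN⟩
  refine (Set.countable_iUnion fun N => ?_).mono hsub
  refine Set.MapsTo.countable_of_injOn (f := fun ξ : ℝ => fun i : Fin d => round (ξ * α ^ (N + i)))
    (t := Set.univ) (Set.mapsTo_univ _ _) ?_ Set.countable_univ
  intro ξ hξ η hη he
  have hall : ∀ j : ℕ, round (ξ * α ^ (N + j)) = round (η * α ^ (N + j)) := by
    intro j
    induction j using Nat.strong_induction_on with
    | _ j ih =>
      by_cases hj : j < d
      · exact congrFun he ⟨j, hj⟩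
      · obtain ⟨k, rfl⟩ := Nat.exists_eq_add_of_le (not_lt.1 hj)
        have a1 := hrec ξ (N + k) fun l hl => hξ l (by omega)
        have a2 := hrec η (N + k) fun l hl => hη l (by omega)
        rw [Finset.sum_range_succ] at a1 a2
        have hc : P.coeff d = 1 := hP
        rw [hc, one_mul] at a1 a2
        have : ∑ i ∈ Finset.range d, P.coeff i * round (ξ * α ^ (N + k + i))
            = ∑ i ∈ Finset.range d, P.coeff i * round (η * α ^ (N + k + i)) := by
          refine Finset.sum_congr rfl fun i hi => ?_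
          have hi' := Finset.mem_range.1 hi
          have := ih (k + i) (by omega)
          rw [add_assoc, this]
        have e : N + (d + k) = N + k + d := by ring
        rw [e]
        linarith
  by_contra hne
  have hpos : 0 < |ξ - η| := abs_pos.2 (sub_ne_zero.2 hne)
  obtain ⟨j, hj⟩ := pow_unbounded_of_one_lt (1 / |ξ - η|) h1
  have b1 := abs_sub_round (ξ * α ^ (N + j))
  have b2 := abs_sub_round (η * α ^ (N + j))
  rw [hall j] at b1
  have b3 : |ξ - η| * α ^ (N + j) ≤ 1 := by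
    have : (ξ - η) * α ^ (N + j) = (ξ * α ^ (N + j) - round (η * α ^ (N + j)))
        - (η * α ^ (N + j) - round (η * α ^ (N + j))) := by ring
    have h5 : |(ξ - η) * α ^ (N + j)| ≤ 1 := by
      rw [this]
      exact (abs_sub _ _).trans (by linarith)
    rwa [abs_mul, abs_of_pos (pow_pos (by linarith : (0 : ℝ) < α) _)] at h5
  have b4 : α ^ j ≤ α ^ (N + j) := pow_le_pow_right₀ h1.le (by omega)
  rw [div_lt_iff₀ hpos] at hj
  nlinarith

theorem notClosed {α : ℝ} (h1 : 1 < α) (hi : IsIntegral ℤ α)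
    (h0 : ∀ ε : ℝ, 0 < ε → ∃ ξ, 0 < L α ξ ∧ L α ξ < ε) : ¬ IsClosed (Set.range (L α)) := by
  intro hc
  obtain ⟨δ, hδ, hcount⟩ := countable_small h1 hi
  have hsub : Set.Ioo 0 (min δ (1 / 2)) ⊆ L α '' {ξ : ℝ | L α ξ < δ} := by
    intro t ht
    have ht1 : t < δ := ht.2.trans_le (min_le_left _ _)
    have ht2 : t < 1 / 2 := ht.2.trans_le (min_le_right _ _)
    have : t ∈ Set.range (L α) := by
      rw [← hc.closure_eq, Metric.mem_closure_iff]
      intro ε hε
      obtain ⟨ξ, hξ0, hξ1⟩ := h0 (min ε t) (lt_min hε ht.1)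
      have c1 : L α ξ < ε := hξ1.trans_le (min_le_left _ _)
      have c2 : L α ξ < t := hξ1.trans_le (min_le_right _ _)
      set m := ⌊t / L α ξ⌋₊ with hm
      have hq : 1 ≤ t / L α ξ := by rw [le_div_iff₀ hξ0]; linarith
      have m0 : 0 < m := Nat.floor_pos.2 hq
      have m1 : (m : ℝ) ≤ t / L α ξ := Nat.floor_le (by linarith)
      have m2 : t / L α ξ < m + 1 := Nat.lt_floor_add_one _
      rw [le_div_iff₀ hξ0] at m1
      rw [div_lt_iff₀ hξ0] at m2
      refine ⟨L α (m * ξ), ⟨_, rfl⟩, ?_⟩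
      rw [scale m m0 (by linarith), Real.dist_eq, abs_lt]
      constructor <;> nlinarith
    obtain ⟨ξ, rfl⟩ := this
    exact ⟨ξ, ht1, rfl⟩
  have h2 := ((hcount.image (L α)).mono hsub).measure_zero MeasureTheory.volume
  rw [Real.volume_Ioo, ENNReal.ofReal_eq_zero] at h2
  have : 0 < min δ (1 / 2 : ℝ) := lt_min hδ (by norm_num)
  linarith

theorem lagr (θ : ℂ) (hθ : ‖θ‖ = 1) (s : Finset ℂ) (hs : θ ∉ s) :
    ∀ (c0 : ℂ) (c : ℂ → ℂ),
      Tendsto (fun n : ℕ => c0 * θ ^ n + ∑ β ∈ s, c β * β ^ n) atTop (𝓝 0) → c0 = 0 := by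
  classical
  induction s using Finset.induction_on with
  | empty =>
    intro c0 c h
    have h2 := h.norm
    simp only [Finset.sum_empty, add_zero, norm_mul, norm_pow, hθ, one_pow, mul_one,
      norm_zero] at h2
    exact norm_eq_zero.1 (tendsto_nhds_unique tendsto_const_nhds h2)
  | insert γ s hγ ih =>
    intro c0 c h
    have hne : θ ≠ γ := fun e => hs (e ▸ Finset.mem_insert_self _ _)
    have hs' : θ ∉ s := fun e => hs (Finset.mem_insert_of_mem e)
    have h1 := (h.comp (tendsto_add_atTop_nat 1)).sub (h.const_mul γ)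
    have := ih hs' (c0 * (θ - γ)) (fun β => c β * (β - γ)) (by
      simp only [mul_zero, sub_zero] at h1
      refine h1.congr fun n => ?_
      simp only [Function.comp, Finset.sum_insert hγ]
      have : ∑ β ∈ s, c β * (β - γ) * β ^ n
          = ∑ β ∈ s, c β * β ^ (n + 1) - γ * ∑ β ∈ s, c β * β ^ n := by
        rw [Finset.mul_sum, ← Finset.sum_sub_distrib]
        exact Finset.sum_congr rfl fun β _ => by ring
      rw [this]
      ring)
    exact (mul_eq_zero.1 this).resolve_right (sub_ne_zero.2 hne)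

theorem key {α : ℝ} (s : Finset ℂ) (hs : ∀ β ∈ s, ‖β‖ ≤ 1) (θ : ℂ) (hθs : θ ∈ s)
    (hθ : ‖θ‖ = 1) (hr : ∀ k, 0 < k → θ ^ k ≠ 1)
    (hp : ∀ n : ℕ, ∃ z : ℤ, ((α ^ n : ℝ) : ℂ) + ∑ β ∈ s, β ^ n = z) (ε : ℝ) (hε : 0 < ε) :
    ∃ ξ, 0 < L α ξ ∧ L α ξ < ε := by
  classical
  set η : ℝ := min ε (1 / 2) / (2 * (s.card + 1)) with hη
  have hm0 : 0 < min ε (1 / 2 : ℝ) := lt_min hε (by norm_num)
  have hη0 : 0 < η := by positivity
  have hcη : s.card * η ≤ min ε (1 / 2) / 2 := by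
    rw [hη, ← mul_div_assoc, div_le_div_iff₀ (by positivity) (by norm_num)]
    nlinarith
  obtain ⟨a, -, φ, hφ, hlim⟩ := (isCompact_closedBall (0 : s → ℂ) 1).tendsto_subseq
    (x := fun n : ℕ => fun β : s => (β : ℂ) ^ n) (fun n => by
      rw [mem_closedBall_zero_iff, pi_norm_le_iff_of_nonneg zero_le_one]
      intro β
      rw [norm_pow]
      exact pow_le_one₀ (norm_nonneg _) (hs β β.2))
  obtain ⟨N, hN⟩ := Metric.cauchySeq_iff.1 hlim.cauchySeq η hη0
  have hclose := hN (N + 1) (by omega) N le_rfl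
  set m := φ N
  set m' := φ (N + 1)
  have hmm : m < m' := hφ (Nat.lt_succ_self N)
  have hc : ∀ β ∈ s, ‖β ^ m' - β ^ m‖ ≤ η := by
    intro β hβ
    rw [dist_eq_norm] at hclose
    have := norm_le_pi_norm
      ((fun β : s => (β : ℂ) ^ m') - (fun β : s => (β : ℂ) ^ m)) ⟨β, hβ⟩
    exact this.trans hclose.le
  set u : ℕ → ℂ := fun n => ∑ β ∈ s, (β ^ m' - β ^ m) * β ^ n with hu
  have hub : ∀ n, ‖u n‖ ≤ min ε (1 / 2) / 2 := by
    intro n
    refine le_trans ?_ hcη
    calc ‖u n‖ ≤ ∑ β ∈ s, ‖(β ^ m' - β ^ m) * β ^ n‖ := norm_sum_le _ _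
      _ ≤ ∑ β ∈ s, η := by
          refine Finset.sum_le_sum fun β hβ => ?_
          rw [norm_mul, norm_pow]
          have := pow_le_one₀ (norm_nonneg β) (hs β hβ) (n := n)
          have := hc β hβ
          nlinarith [norm_nonneg (β ^ m' - β ^ m), pow_nonneg (norm_nonneg β) n]
      _ = s.card * η := by simp
  have hd : ∀ n, |(α ^ m' - α ^ m) * α ^ n - round ((α ^ m' - α ^ m) * α ^ n)| = ‖u n‖ := by
    intro n
    obtain ⟨z1, hz1⟩ := hp (m' + n)
    obtain ⟨z2, hz2⟩ := hp (m + n)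
    have e : (((α ^ m' - α ^ m) * α ^ n - ((z1 - z2 : ℤ) : ℝ) : ℝ) : ℂ) = -u n := by
      have : u n = ∑ β ∈ s, β ^ (m' + n) - ∑ β ∈ s, β ^ (m + n) := by
        rw [hu, ← Finset.sum_sub_distrib]
        exact Finset.sum_congr rfl fun β _ => by ring
      rw [this]
      push_cast at hz1 hz2 ⊢
      linear_combination hz1 - hz2
    have e2 : |(α ^ m' - α ^ m) * α ^ n - ((z1 - z2 : ℤ) : ℝ)| = ‖u n‖ := by
      rw [← Real.norm_eq_abs, ← Complex.norm_real, e, norm_neg]
    have e3 := dist_eq _ (z1 - z2) (by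
      rw [e2]
      have := hub n
      have := min_le_right ε (1 / 2 : ℝ)
      linarith)
    rw [e3, e2]
  refine ⟨α ^ m' - α ^ m, ?_, ?_⟩
  · by_contra hle
    have hle := not_lt.1 hle
    have ht : Tendsto u atTop (𝓝 0) := by
      rw [tendsto_zero_iff_norm_tendsto_zero, Metric.tendsto_nhds]
      intro r hr0
      filter_upwards [ev_lt (hle.trans_lt hr0)] with n hn
      rw [hd] at hn
      simpa using hn
    have := lagr θ hθ (s.erase θ) (Finset.notMem_erase _ _) (θ ^ m' - θ ^ m)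
      (fun β => β ^ m' - β ^ m) (by
        refine ht.congr fun n => ?_
        exact (Finset.add_sum_erase s (fun β => (β ^ m' - β ^ m) * β ^ n) hθs).symm)
    obtain ⟨k, hk⟩ := Nat.exists_eq_add_of_lt hmm
    have hθ0 : θ ≠ 0 := by intro e; simp [e] at hθ
    apply hr (k + 1) (by omega)
    have e : θ ^ m * (θ ^ (k + 1) - 1) = 0 := by rw [← this, hk]; ring
    exact sub_eq_zero.1 ((mul_eq_zero.1 e).resolve_left (pow_ne_zero _ hθ0))
  · have : L α (α ^ m' - α ^ m) ≤ min ε (1 / 2) / 2 :=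
      limsup_le_of_le (cobdd _ _) (Eventually.of_forall fun n => by rw [hd]; exact hub n)
    have := min_le_left ε (1 / 2 : ℝ)
    linarith

open IntermediateField in
theorem psum {α : ℝ} (hi : IsIntegral ℤ α) (n : ℕ) :
    ∃ z : ℤ, ((α ^ n : ℝ) : ℂ) +
      ∑ β ∈ ((minpoly ℚ α).aroots ℂ).toFinset.erase (α : ℂ), β ^ n = z := by
  classical
  have hq : IsIntegral ℚ α := hi.tower_top
  have : FiniteDimensional ℚ ℚ⟮α⟯ := adjoin.finiteDimensional hq
  have ha : IsIntegral ℤ (AdjoinSimple.gen ℚ α) := by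
    rw [← isIntegral_algebraMap_iff (algebraMap ℚ⟮α⟯ ℝ).injective]
    exact hi
  obtain ⟨z, hz⟩ := IsIntegrallyClosed.isIntegral_iff.1
    (Algebra.isIntegral_trace (L := ℚ) (ha.pow n))
  refine ⟨z, ?_⟩
  have h1 := trace_eq_sum_embeddings (K := ℚ) (L := ℚ⟮α⟯) ℂ (x := AdjoinSimple.gen ℚ α ^ n)
  rw [← hz] at h1
  have h2 : ∑ σ : ℚ⟮α⟯ →ₐ[ℚ] ℂ, σ (AdjoinSimple.gen ℚ α ^ n)
      = ∑ β ∈ ((minpoly ℚ α).aroots ℂ).toFinset, β ^ n := by
    refine Finset.sum_bij (fun σ _ => ((algHomAdjoinIntegralEquiv ℚ (K := ℂ) hq σ : _) : ℂ))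
      ?_ ?_ ?_ ?_
    · intro σ _
      exact Multiset.mem_toFinset.2 (algHomAdjoinIntegralEquiv ℚ (K := ℂ) hq σ).2
    · intro σ _ τ _ h
      exact (algHomAdjoinIntegralEquiv ℚ (K := ℂ) hq).injective (Subtype.ext h)
    · intro β hβ
      exact ⟨(algHomAdjoinIntegralEquiv ℚ (K := ℂ) hq).symm ⟨β, Multiset.mem_toFinset.1 hβ⟩,
        Finset.mem_univ _, by simp⟩
    · intro σ _
      have := algHomAdjoinIntegralEquiv_symm_apply_gen ℚ (K := ℂ) hq
        (algHomAdjoinIntegralEquiv ℚ (K := ℂ) hq σ)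
      rw [Equiv.symm_apply_apply] at this
      rw [map_pow]
      exact congrArg (· ^ n) this
  have hmem : (α : ℂ) ∈ ((minpoly ℚ α).aroots ℂ).toFinset := by
    rw [Multiset.mem_toFinset, mem_aroots]
    refine ⟨minpoly.ne_zero hq, ?_⟩
    have := aeval_algebraMap_apply ℂ α (minpoly ℚ α)
    rw [minpoly.aeval, map_zero] at this
    exact this
  have h3 := Finset.add_sum_erase _ (fun β : ℂ => β ^ n) hmem
  push_cast
  rw [h3, ← h2, ← h1]
  simp

theorem salem {α : ℝ} (h1 : 1 < α) (hi : IsIntegral ℤ α)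
    (hle : ∀ β : ℂ, aeval β (minpoly ℚ α) = 0 → β ≠ α → ‖β‖ ≤ 1)
    (hex : ∃ β : ℂ, aeval β (minpoly ℚ α) = 0 ∧ ‖β‖ = 1) :
    ¬ IsClosed (Set.range (L α)) := by
  classical
  have hq : IsIntegral ℚ α := hi.tower_top
  obtain ⟨θ, hθ0, hθ⟩ := hex
  refine notClosed h1 hi (key (((minpoly ℚ α).aroots ℂ).toFinset.erase (α : ℂ)) ?_ θ ?_ hθ ?_
    (psum hi))
  · intro β hβ
    rw [Finset.mem_erase, Multiset.mem_toFinset, mem_aroots] at hβ
    exact hle β hβ.2.2 hβ.1
  · rw [Finset.mem_erase, Multiset.mem_toFinset, mem_aroots]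
    refine ⟨?_, minpoly.ne_zero hq, hθ0⟩
    rintro rfl
    rw [Complex.norm_real, Real.norm_eq_abs, abs_of_pos (by linarith)] at hθ
    linarith
  · intro k hk hθk
    have e : minpoly ℚ α = minpoly ℚ θ :=
      minpoly.eq_of_irreducible_of_monic (minpoly.irreducible hq) hθ0 (minpoly.monic hq)
    have hdvd : minpoly ℚ θ ∣ X ^ k - 1 := minpoly.dvd ℚ θ (by simp [hθk])
    rw [← e] at hdvd
    have := aeval_eq_zero_of_dvd_aeval_eq_zero hdvd (minpoly.aeval ℚ α)
    simp only [map_sub, map_pow, aeval_X, map_one] at this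
    have := one_lt_pow₀ h1 hk.ne'
    linarith

end Pool.Agent.H.MP_8d213d_nt
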